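import Pool.Agent.TH137.MZ.Field

set_option autoImplicit false

/-! # Dimensions of partial sums and directness -/

namespace Pool.Agent.TH137.MZ

open Finset Polynomial Filter Topology

variable (A : ℕ → Submodule ℚ ℝ)

/-- dimension of `A 0 + ... + A N` -/
noncomputable def S (N : ℕ) : ℕ := Module.finrank ℚ (⨆ k : Fin (N + 1), A k : Submodule ℚ ℝ)

/-- sum of the dimensions of `A 0, ..., A N` -/
noncomputable def T (N : ℕ) : ℕ := ∑ k ∈ Finset.range (N + 1), Module.finrank ℚ (A k)

/-- the polynomial with the given coefficients -/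
noncomputable def toPoly (N : ℕ) : ((k : Fin (N + 1)) → A k) →ₗ[ℚ] ℝ[X] where
  toFun v := ∑ k : Fin (N + 1), Polynomial.monomial (k : ℕ) ((v k : A k) : ℝ)
  map_add' v w := by
    rw [← Finset.sum_add_distrib]
    refine Finset.sum_congr rfl fun k _ => ?_
    rw [Pi.add_apply, Submodule.coe_add, map_add]
  map_smul' c v := by
    rw [RingHom.id_apply, Finset.smul_sum]
    refine Finset.sum_congr rfl fun k _ => ?_
    rw [Pi.smul_apply, Submodule.coe_smul, Polynomial.smul_monomial]

theorem toPoly_apply (N : ℕ) (v : (k : Fin (N + 1)) → A k) :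
    toPoly A N v = ∑ k : Fin (N + 1), Polynomial.monomial (k : ℕ) ((v k : A k) : ℝ) := rfl

theorem coeff_toPoly (N : ℕ) (v : (k : Fin (N + 1)) → A k) (k : Fin (N + 1)) :
    (toPoly A N v).coeff k = (v k : ℝ) := by
  rw [toPoly_apply, Polynomial.finsetSum_coeff, Finset.sum_eq_single k]
  · rw [Polynomial.coeff_monomial, if_pos rfl]
  · intro b _ hb
    rw [Polynomial.coeff_monomial, if_neg]
    intro h
    exact hb (Fin.ext h)
  · intro h
    exact absurd (Finset.mem_univ k) h

theorem coeff_toPoly_gt (N : ℕ) (v : (k : Fin (N + 1)) → A k) (k : ℕ) (hk : N < k) :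
    (toPoly A N v).coeff k = 0 := by
  rw [toPoly_apply, Polynomial.finsetSum_coeff]
  refine Finset.sum_eq_zero fun b _ => ?_
  rw [Polynomial.coeff_monomial, if_neg]
  intro h
  have := b.2
  omega

theorem eval_toPoly (N : ℕ) (v : (k : Fin (N + 1)) → A k) :
    (toPoly A N v).eval 1 = ∑ k : Fin (N + 1), (v k : ℝ) := by
  rw [toPoly_apply, Polynomial.eval_finsetSum]
  refine Finset.sum_congr rfl fun k _ => ?_
  rw [Polynomial.eval_monomial, one_pow, mul_one]

theorem toPoly_inj (N : ℕ) : Function.Injective (toPoly A N) := by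
  intro v w h
  funext k
  apply Subtype.ext
  rw [← coeff_toPoly, ← coeff_toPoly, h]

theorem mem_range_toPoly (N : ℕ) (P : ℝ[X]) :
    P ∈ LinearMap.range (toPoly A N) ↔ (∀ k, P.coeff k ∈ A k) ∧ ∀ k, N < k → P.coeff k = 0 := by
  constructor
  · rintro ⟨v, rfl⟩
    refine ⟨fun k => ?_, fun k hk => coeff_toPoly_gt A N v k hk⟩
    by_cases hk : N < k
    · rw [coeff_toPoly_gt A N v k hk]
      exact (A k).zero_mem
    · have := coeff_toPoly A N v ⟨k, by omega⟩
      simp only at this
      rw [this]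
      exact (v ⟨k, by omega⟩).2
  · rintro ⟨h1, h2⟩
    refine ⟨fun k => ⟨P.coeff k, h1 k⟩, ?_⟩
    ext k
    by_cases hk : N < k
    · rw [coeff_toPoly_gt A N _ k hk, h2 k hk]
    · exact coeff_toPoly A N (fun k => ⟨P.coeff k, h1 k⟩) ⟨k, by omega⟩

/-- evaluation at one of the vectors -/
noncomputable def ev (N : ℕ) : ((k : Fin (N + 1)) → A k) →ₗ[ℚ] ℝ where
  toFun v := (toPoly A N v).eval 1
  map_add' v w := by rw [map_add, Polynomial.eval_add]
  map_smul' c v := by
    rw [map_smul, Polynomial.eval_smul]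
    rfl

theorem range_ev (N : ℕ) : LinearMap.range (ev A N) = ⨆ k : Fin (N + 1), A k := by
  apply le_antisymm
  · rintro _ ⟨v, rfl⟩
    change (toPoly A N v).eval 1 ∈ _
    rw [eval_toPoly]
    refine Submodule.sum_mem _ fun k _ => ?_
    exact (le_iSup (fun k : Fin (N + 1) => A k) k) (v k).2
  · refine iSup_le fun k x hx => ?_
    refine ⟨Pi.single k ⟨x, hx⟩, ?_⟩
    change (toPoly A N _).eval 1 = x
    rw [eval_toPoly, Finset.sum_eq_single k]
    · rw [Pi.single_eq_same]
    · intro b _ hb
      rw [Pi.single_eq_of_ne hb]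
      rfl
    · intro h
      exact absurd (Finset.mem_univ k) h

variable [∀ k, FiniteDimensional ℚ (A k)]

theorem finrank_V (N : ℕ) : Module.finrank ℚ ((k : Fin (N + 1)) → A k) = T A N := by
  rw [Module.finrank_pi_fintype, T, Finset.sum_range]

theorem rank_nullity (N : ℕ) : S A N + Module.finrank ℚ (LinearMap.ker (ev A N)) = T A N := by
  rw [← finrank_V, S, ← range_ev]
  exact LinearMap.finrank_range_add_finrank_ker _

theorem S_le_T (N : ℕ) : S A N ≤ T A N := by
  rw [← rank_nullity]
  exact Nat.le_add_right _ _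

theorem ker_of_direct (hd : Direct A) (N : ℕ) : LinearMap.ker (ev A N) = ⊥ := by
  rw [LinearMap.ker_eq_bot']
  intro v hv
  have h0 : (toPoly A N v).eval 1 = 0 := hv
  have h1 : ∑ j ∈ Finset.range (N + 1), (toPoly A N v).coeff j = 0 := by
    rw [eval_toPoly] at h0
    rw [Finset.sum_range, ← h0]
    exact Finset.sum_congr rfl fun k _ => coeff_toPoly A N v k
  have h2 := hd N (fun j => (toPoly A N v).coeff j)
    (fun j _ => ((mem_range_toPoly A N _).1 ⟨v, rfl⟩).1 j) h1
  funext k
  apply Subtype.ext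
  rw [← coeff_toPoly]
  exact h2 k (by have := k.2; omega)

theorem S_eq_T (hd : Direct A) (N : ℕ) : S A N = T A N := by
  rw [← rank_nullity, ker_of_direct A hd, finrank_bot, add_zero]

theorem direct_of_S_eq_T (h : ∀ N, S A N = T A N) : Direct A := by
  intro p z hz hs j hj
  have h1 : Module.finrank ℚ (LinearMap.ker (ev A p)) = 0 := by
    have := rank_nullity A p
    have := h p
    omega
  have h2 : LinearMap.ker (ev A p) = ⊥ := Submodule.finrank_eq_zero.1 h1
  rw [LinearMap.ker_eq_bot'] at h2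
  have h3 := h2 (fun k => ⟨z k, hz k (by have := k.2; omega)⟩) (by
    change (toPoly A p _).eval 1 = 0
    rw [eval_toPoly, ← hs, Finset.sum_range])
  have h4 := congrFun h3 ⟨j, by omega⟩
  exact congrArg Subtype.val h4

/-- a relation makes the sum smaller in all weights -/
theorem defect (h : Mul A) (w : ℕ) (z : ℕ → ℝ) (hz : ∀ j ≤ w, z j ∈ A j)
    (hs : ∑ j ∈ Finset.range (w + 1), z j = 0) (hw : z w ≠ 0) (N : ℕ) :
    S A (N + w) + T A N ≤ T A (N + w) := by
  rw [← rank_nullity A (N + w), ← finrank_V A N]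
  apply Nat.add_le_add_left
  let Q : ℝ[X] := toPoly A w (fun k => ⟨z k, hz k (by have := k.2; omega)⟩)
  have hQ := (mem_range_toPoly A w Q).1 ⟨_, rfl⟩
  have hQw : Q.coeff w = z w :=
    coeff_toPoly A w (fun k => ⟨z k, hz k (by have := k.2; omega)⟩) ⟨w, by omega⟩
  have hQ0 : Q ≠ 0 := by
    intro h0
    rw [h0, Polynomial.coeff_zero] at hQw
    exact hw hQw.symm
  have hQ1 : Q.eval 1 = 0 := by
    rw [eval_toPoly, ← hs, Finset.sum_range]
  have key : ∀ v : (k : Fin (N + 1)) → A k, Q * toPoly A N v ∈ LinearMap.range (toPoly A (N + w)) := by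
    intro v
    have hv := (mem_range_toPoly A N (toPoly A N v)).1 ⟨_, rfl⟩
    rw [mem_range_toPoly]
    constructor
    · intro k
      rw [Polynomial.coeff_mul]
      refine Submodule.sum_mem _ fun x hx => ?_
      rw [Finset.HasAntidiagonal.mem_antidiagonal] at hx
      rw [← hx]
      exact h.mul _ _ _ _ (hQ.1 _) (hv.1 _)
    · intro k hk
      rw [Polynomial.coeff_mul]
      refine Finset.sum_eq_zero fun x hx => ?_
      rw [Finset.HasAntidiagonal.mem_antidiagonal] at hx
      by_cases h1 : w < x.1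
      · rw [hQ.2 _ h1, zero_mul]
      · rw [hv.2 x.2 (by omega), mul_zero]
  choose f hf using key
  have hfadd : ∀ v v', f (v + v') = f v + f v' := by
    intro v v'
    apply toPoly_inj A (N + w)
    rw [hf, map_add, map_add, hf, hf, mul_add]
  have hfsmul : ∀ (c : ℚ) v, f (c • v) = c • f v := by
    intro c v
    apply toPoly_inj A (N + w)
    rw [hf, map_smul, map_smul, hf, mul_smul_comm]
  let F : ((k : Fin (N + 1)) → A k) →ₗ[ℚ] LinearMap.ker (ev A (N + w)) :=
    { toFun := fun v => ⟨f v, by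
        rw [LinearMap.mem_ker]
        change (toPoly A (N + w) (f v)).eval 1 = 0
        rw [hf, Polynomial.eval_mul, hQ1, zero_mul]⟩
      map_add' := fun v v' => Subtype.ext (hfadd v v')
      map_smul' := fun c v => Subtype.ext (hfsmul c v) }
  have hF : Function.Injective F := by
    intro v v' h1
    have h2 : f v = f v' := congrArg Subtype.val h1
    apply toPoly_inj A N
    have h3 : Q * toPoly A N v = Q * toPoly A N v' := by rw [← hf, ← hf, h2]
    exact mul_left_cancel₀ hQ0 h3
  exact LinearMap.finrank_le_finrank_of_injective hF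

/-- if the sum is not direct, there is a defect of this kind with positive `w` -/
theorem exists_defect (h : Mul A) (hnd : ¬ Direct A) :
    ∃ w, 1 ≤ w ∧ ∀ N, S A (N + w) + T A N ≤ T A (N + w) := by
  classical
  rw [Direct] at hnd
  push Not at hnd
  obtain ⟨p, z, hz, hs, j, hj, hzj⟩ := hnd
  -- the largest index with nonzero entry
  let w := Nat.findGreatest (fun n => z n ≠ 0) p
  have hw0 : z w ≠ 0 := Nat.findGreatest_spec (P := fun n => z n ≠ 0) hj hzj
  have hwp : w ≤ p := Nat.findGreatest_le p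
  have hgt : ∀ n, w < n → n ≤ p → z n = 0 := by
    intro n h1 h2
    by_contra h3
    exact Nat.findGreatest_is_greatest h1 h2 h3
  have hs' : ∑ j ∈ Finset.range (w + 1), z j = 0 := by
    rw [← hs]
    refine Finset.sum_subset (by
      intro n hn
      rw [Finset.mem_range] at hn ⊢
      omega) fun n hn hn' => ?_
    rw [Finset.mem_range] at hn hn'
    exact hgt n (by omega) (by omega)
  refine ⟨w, ?_, fun N => defect A h w z (fun j hj => hz j (by omega)) hs' hw0 N⟩
  by_contra h1
  have h2 : w = 0 := by omega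
  rw [h2] at hs' hw0
  simp at hs'
  exact hw0 hs'

theorem T_mono : Monotone (T A) := by
  refine monotone_nat_of_le_succ fun n => ?_
  rw [T, T, Finset.sum_range_succ _ (n + 1)]
  exact Nat.le_add_right _ _

theorem T_pos (h : Mul A) (N : ℕ) : 1 ≤ T A N := by
  have h1 : 1 ≤ T A 0 := by
    rw [T, Finset.sum_range_one]
    have : Nontrivial (A 0) := ⟨⟨1, h.one⟩, 0, fun h2 => by
      have := congrArg Subtype.val h2
      simp at this⟩
    exact Module.finrank_pos
  exact h1.trans (T_mono A (Nat.zero_le N))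

/-- directness is equivalent to asymptotic equality of the dimensions -/
theorem direct_iff_tendsto (h : Mul A) (hb : ∀ n, Module.finrank ℚ (A n) ≤ 2 ^ n) :
    Direct A ↔ Tendsto (fun N => (S A N : ℝ) / T A N) atTop (𝓝 1) := by
  constructor
  · intro hd
    have : (fun N => (S A N : ℝ) / T A N) = fun _ => 1 := by
      funext N
      rw [S_eq_T A hd, div_self]
      have := T_pos A h N
      positivity
    rw [this]
    exact tendsto_const_nhds
  · intro ht
    by_contra hnd
    obtain ⟨w, hw, hN⟩ := exists_defect A h hnd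
    have hT : ∀ N, T A N ≤ 2 ^ (N + 1) := by
      intro N
      rw [T]
      have : ∑ k ∈ Finset.range (N + 1), Module.finrank ℚ (A k) ≤ ∑ k ∈ Finset.range (N + 1), 2 ^ k :=
        Finset.sum_le_sum fun k _ => hb k
      have h2 : ∑ k ∈ Finset.range (N + 1), 2 ^ k < 2 ^ (N + 1) := Nat.geomSum_lt (le_refl 2) (by
        intro k hk
        exact Finset.mem_range.1 hk)
      omega
    have h1 : ∀ᶠ N in atTop, 1 - (4 ^ w : ℝ)⁻¹ < (S A N : ℝ) / T A N := by
      apply ht.eventually_const_lt
      have : (0 : ℝ) < (4 ^ w : ℝ)⁻¹ := by positivity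
      linarith
    rw [eventually_atTop] at h1
    obtain ⟨N0, h1⟩ := h1
    have h2 : ∀ N, N0 ≤ N → 4 ^ w * T A N ≤ T A (N + w) := by
      intro N hN0
      have h3 := h1 (N + w) (by omega)
      have hp : (0 : ℝ) < T A (N + w) := by
        have := T_pos A h (N + w)
        positivity
      rw [lt_div_iff₀ hp] at h3
      have h4 : (S A (N + w) : ℝ) + T A N ≤ T A (N + w) := by exact_mod_cast hN N
      have h5 : (T A N : ℝ) ≤ (4 ^ w : ℝ)⁻¹ * T A (N + w) := by linarith
      have h6 : (4 ^ w : ℝ) * T A N ≤ T A (N + w) := by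
        have h7 : (0 : ℝ) < 4 ^ w := by positivity
        calc (4 ^ w : ℝ) * T A N ≤ 4 ^ w * ((4 ^ w : ℝ)⁻¹ * T A (N + w)) :=
              mul_le_mul_of_nonneg_left h5 h7.le
          _ = T A (N + w) := by field_simp
      exact_mod_cast h6
    have h3 : ∀ k, (4 ^ w) ^ k ≤ T A (N0 + w * k) := by
      intro k
      induction k with
      | zero =>
        simpa using T_pos A h N0
      | succ k ih =>
        calc (4 ^ w) ^ (k + 1) = 4 ^ w * (4 ^ w) ^ k := by ring
          _ ≤ 4 ^ w * T A (N0 + w * k) := Nat.mul_le_mul_left _ ih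
          _ ≤ T A (N0 + w * k + w) := h2 _ (by omega)
          _ = T A (N0 + w * (k + 1)) := by rw [Nat.mul_succ, Nat.add_assoc]
    have h4 := (h3 (N0 + 2)).trans (hT _)
    have h5 : (4 ^ w) ^ (N0 + 2) = 2 ^ (2 * (w * (N0 + 2))) := by
      rw [← pow_mul, show (4 : ℕ) = 2 ^ 2 by norm_num, ← pow_mul]
    rw [h5] at h4
    have h6 := (Nat.pow_le_pow_iff_right (a := 2) (by norm_num)).1 h4
    have h7 : N0 + 2 ≤ w * (N0 + 2) := Nat.le_mul_of_pos_left _ hw
    omega

end Pool.Agent.TH137.MZ
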