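import Pool.Agent.H447R2.MZ.Tup
import Pool.Agent.TH137.MZ.Dim

set_option autoImplicit false

/-! # The spaces of multiple zeta values -/

namespace Pool.Agent.TH137.MZ

open Finset Polynomial Filter Topology
open Pool.Agent.H447R2.MZ (Zs Adm val Zs_eq tendsto_H H H_nil)

theorem mulZs : Mul Zs := ⟨Pool.Agent.H447R2.MZ.one_mem, Pool.Agent.H447R2.MZ.mul_mem⟩

theorem Zs_one_eq : ∀ z ∈ Zs 1, z = 0 := by
  intro x hx
  rw [Zs_eq] at hx
  induction hx using Submodule.span_induction with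
  | mem x hx =>
    obtain ⟨s, hs, h0, rfl⟩ := hx
    exfalso
    rcases s with _ | ⟨a, s⟩
    · simp at h0
    · have := hs.2 a s rfl
      simp only [List.sum_cons] at h0
      omega
  | zero => rfl
  | add x y _ _ hx hy => rw [hx, hy, add_zero]
  | smul a x _ hx => rw [hx, smul_zero]

theorem Zs_le (n : ℕ) : Zs n ≤ Submodule.span ℚ (Set.range fun c : Composition n => val c.blocks) := by
  rw [Zs_eq]
  refine Submodule.span_mono ?_
  rintro x ⟨s, hs, h0, rfl⟩
  exact ⟨⟨s, fun {i} hi => hs.1 i hi, h0⟩, rfl⟩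

instance finZs (n : ℕ) : FiniteDimensional ℚ (Zs n) :=
  haveI : FiniteDimensional ℚ
      (Submodule.span ℚ (Set.range fun c : Composition n => val c.blocks)) :=
    FiniteDimensional.span_of_finite ℚ (Set.finite_range _)
  Submodule.finiteDimensional_of_le (Zs_le n)

theorem finrank_Zs_le (n : ℕ) : Module.finrank ℚ (Zs n) ≤ 2 ^ n := by
  haveI : FiniteDimensional ℚ
      (Submodule.span ℚ (Set.range fun c : Composition n => val c.blocks)) :=
    FiniteDimensional.span_of_finite ℚ (Set.finite_range _)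
  calc Module.finrank ℚ (Zs n) ≤ Module.finrank ℚ
        (Submodule.span ℚ (Set.range fun c : Composition n => val c.blocks)) :=
        Submodule.finrank_mono (Zs_le n)
    _ ≤ Fintype.card (Composition n) := finrank_range_le_card _
    _ = 2 ^ (n - 1) := composition_card n
    _ ≤ 2 ^ n := Nat.pow_le_pow_right (by norm_num) (Nat.sub_le n 1)

theorem transcendental_of_some {A : ℕ → Submodule ℚ ℝ} (h : Mul A) (x : ℝ) (hx : x ∈ A 2)
    (hx0 : x ≠ 0) (m : ℕ) (v : ℝ) (hv : v ∈ A m) (ht : Transcendental (quot A h) v) :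
    Transcendental (quot A h) x := by
  intro hx'
  apply ht
  have h2 : v ^ 2 / x ^ m ∈ quot A h :=
    mem_quot (k := m * 2) (h.pow m v hv 2) (by
      have := h.pow 2 x hx m
      rwa [Nat.mul_comm] at this) (pow_ne_zero _ hx0)
  have h3 : IsAlgebraic (quot A h) (v ^ 2) := by
    have e : v ^ 2 = (algebraMap (quot A h) ℝ ⟨_, h2⟩) * x ^ m := by
      change v ^ 2 = v ^ 2 / x ^ m * x ^ m
      rw [div_mul_cancel₀ _ (pow_ne_zero _ hx0)]
    rw [e]
    exact (isAlgebraic_algebraMap _).mul (hx'.pow m)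
  exact IsAlgebraic.of_pow (by norm_num) h3

theorem pi_sq_ne : Real.pi ^ 2 ≠ 0 := pow_ne_zero _ Real.pi_ne_zero

theorem direct_of_some (m : ℕ) (v : ℝ) (hv : v ∈ Zs m) (ht : Transcendental (quot Zs mulZs) v) :
    Direct Zs :=
  direct_of_transcendental mulZs Zs_one_eq (Real.pi ^ 2) Pool.Agent.H447R2.MZ.z3
    Pool.Agent.H447R2.MZ.pi_sq_mem Pool.Agent.H447R2.MZ.z3_mem pi_sq_ne
    Pool.Agent.H447R2.MZ.z3_pos.ne'
    (transcendental_of_some mulZs _ Pool.Agent.H447R2.MZ.pi_sq_mem pi_sq_ne m v hv ht)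

theorem direct_iff_pi : Direct Zs ↔ Transcendental (quot Zs mulZs) Real.pi := by
  constructor
  · intro hd h
    exact transcendental_of_direct mulZs hd 2 (by norm_num) (Real.pi ^ 2)
      Pool.Agent.H447R2.MZ.pi_sq_mem pi_sq_ne (h.pow 2)
  · intro h
    refine direct_of_some 2 (Real.pi ^ 2) Pool.Agent.H447R2.MZ.pi_sq_mem fun h' => h ?_
    exact IsAlgebraic.of_pow (by norm_num) h'

end Pool.Agent.TH137.MZ
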