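import Mathlib

set_option autoImplicit false

/-! # Families of subspaces of `ℝ` closed under products: quotients of equal weight, directness -/

namespace Pool.Agent.TH137.MZ

open Finset Polynomial

/-- A family of `ℚ`-subspaces of `ℝ`, indexed by a weight, closed under products and with
`1` in weight `0`. -/
structure Mul (A : ℕ → Submodule ℚ ℝ) : Prop where
  one : (1 : ℝ) ∈ A 0
  mul : ∀ a b x y, x ∈ A a → y ∈ A b → x * y ∈ A (a + b)

/-- The sum of all the spaces is direct. -/
def Direct (A : ℕ → Submodule ℚ ℝ) : Prop :=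
  ∀ p : ℕ, ∀ z : ℕ → ℝ, (∀ j ≤ p, z j ∈ A j) →
    (∑ j ∈ Finset.range (p + 1), z j) = 0 → ∀ j ≤ p, z j = 0

theorem Mul.pow {A : ℕ → Submodule ℚ ℝ} (h : Mul A) (a : ℕ) (x : ℝ) (hx : x ∈ A a) (i : ℕ) :
    x ^ i ∈ A (a * i) := by
  induction i with
  | zero => simpa using h.one
  | succ i ih =>
    rw [pow_succ, Nat.mul_succ]
    exact h.mul _ _ _ _ ih hx

/-- the field of all quotients `x / y` of elements of equal weight -/
def quot (A : ℕ → Submodule ℚ ℝ) (h : Mul A) : Subfield ℝ where
  carrier := {r | ∃ k, ∃ x ∈ A k, ∃ y ∈ A k, y ≠ 0 ∧ r = x / y}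
  mul_mem' := by
    rintro _ _ ⟨k, x, hx, y, hy, hy0, rfl⟩ ⟨l, u, hu, v, hv, hv0, rfl⟩
    exact ⟨k + l, x * u, h.mul _ _ _ _ hx hu, y * v, h.mul _ _ _ _ hy hv, mul_ne_zero hy0 hv0,
      by field_simp⟩
  one_mem' := ⟨0, 1, h.one, 1, h.one, one_ne_zero, by simp⟩
  add_mem' := by
    rintro _ _ ⟨k, x, hx, y, hy, hy0, rfl⟩ ⟨l, u, hu, v, hv, hv0, rfl⟩
    refine ⟨k + l, x * v + y * u, (A _).add_mem (h.mul _ _ _ _ hx hv) (h.mul _ _ _ _ hy hu), y * v,
      h.mul _ _ _ _ hy hv, mul_ne_zero hy0 hv0, ?_⟩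
    field_simp
  zero_mem' := ⟨0, 0, (A 0).zero_mem, 1, h.one, one_ne_zero, by simp⟩
  neg_mem' := by
    rintro _ ⟨k, x, hx, y, hy, hy0, rfl⟩
    exact ⟨k, -x, (A k).neg_mem hx, y, hy, hy0, by ring⟩
  inv_mem' := by
    rintro _ ⟨k, x, hx, y, hy, hy0, rfl⟩
    by_cases hx0 : x = 0
    · exact ⟨0, 0, (A 0).zero_mem, 1, h.one, one_ne_zero, by simp [hx0]⟩
    · exact ⟨k, y, hy, x, hx, hx0, by rw [inv_div]⟩

theorem mem_quot {A : ℕ → Submodule ℚ ℝ} {h : Mul A} {k : ℕ} {x y : ℝ} (hx : x ∈ A k)
    (hy : y ∈ A k) (hy0 : y ≠ 0) : x / y ∈ quot A h := ⟨k, x, hx, y, hy, hy0, rfl⟩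

variable {A : ℕ → Submodule ℚ ℝ}

/-- directness for arbitrary families of elements of different weights -/
theorem Direct.fam (hd : Direct A) (s : Finset ℕ) (f : ℕ → ℕ) (hf : Function.Injective f)
    (x : ℕ → ℝ) (hx : ∀ j ∈ s, x j ∈ A (f j)) (h0 : ∑ j ∈ s, x j = 0) : ∀ j ∈ s, x j = 0 := by
  classical
  let p := s.sup f
  let z : ℕ → ℝ := fun n => ∑ j ∈ s.filter (fun j => f j = n), x j
  have hz : ∀ n ≤ p, z n ∈ A n := by
    intro n _
    refine Submodule.sum_mem _ fun j hj => ?_
    rw [Finset.mem_filter] at hj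
    rw [← hj.2]
    exact hx j hj.1
  have hs : ∑ n ∈ Finset.range (p + 1), z n = 0 := by
    rw [← h0]
    exact Finset.sum_fiberwise_of_maps_to (fun j hj => Finset.mem_range.2
      (Nat.lt_succ_of_le (Finset.le_sup (f := f) hj))) _
  intro j hj
  have h1 := hd p z hz hs (f j) (Finset.le_sup (f := f) hj)
  have h2 : s.filter (fun i => f i = f j) = {j} := by
    ext i
    simp only [Finset.mem_filter, Finset.mem_singleton]
    constructor
    · rintro ⟨_, h⟩
      exact hf h
    · rintro rfl
      exact ⟨hj, rfl⟩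
  simpa only [z, h2, Finset.sum_singleton] using h1

/-- a common denominator for the coefficients -/
theorem clear (h : Mul A) (P : (quot A h)[X]) :
    ∃ K, ∃ B ∈ A K, B ≠ 0 ∧ ∀ j, ((P.coeff j : quot A h) : ℝ) * B ∈ A K := by
  induction P using Polynomial.induction_on' with
  | add p q hp hq =>
    obtain ⟨K, B, hB, hB0, h1⟩ := hp
    obtain ⟨L, C, hC, hC0, h2⟩ := hq
    refine ⟨K + L, B * C, h.mul _ _ _ _ hB hC, mul_ne_zero hB0 hC0, fun j => ?_⟩
    have e : ((p + q).coeff j : ℝ) * (B * C) =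
        ((p.coeff j : quot A h) : ℝ) * B * C + B * (((q.coeff j : quot A h) : ℝ) * C) := by
      rw [Polynomial.coeff_add]
      push_cast
      ring
    rw [e]
    exact (A _).add_mem (h.mul _ _ _ _ (h1 j) hC) (h.mul _ _ _ _ hB (h2 j))
  | monomial n r =>
    obtain ⟨r, k, x, hx, y, hy, hy0, rfl⟩ := r
    refine ⟨k, y, hy, hy0, fun j => ?_⟩
    rw [Polynomial.coeff_monomial]
    split_ifs with hj
    · have : x / y * y = x := div_mul_cancel₀ x hy0
      simpa only [this] using hx
    · simp

/-- if the sum is direct then the elements of positive weight are transcendental over the field of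
quotients of equal weight -/
theorem transcendental_of_direct (h : Mul A) (hd : Direct A) (m : ℕ) (hm : 1 ≤ m) (u : ℝ)
    (hu : u ∈ A m) (hu0 : u ≠ 0) : Transcendental (quot A h) u := by
  rw [transcendental_iff]
  intro P hP
  obtain ⟨K, B, hB, hB0, hc⟩ := clear h P
  have h1 : ∑ j ∈ Finset.range (P.natDegree + 1), ((P.coeff j : quot A h) : ℝ) * B * u ^ j = 0 := by
    rw [Polynomial.aeval_eq_sum_range] at hP
    have : ∑ j ∈ Finset.range (P.natDegree + 1), ((P.coeff j : quot A h) : ℝ) * B * u ^ j =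
        B * ∑ j ∈ Finset.range (P.natDegree + 1), P.coeff j • u ^ j := by
      rw [Finset.mul_sum]
      refine Finset.sum_congr rfl fun j _ => ?_
      rw [Subfield.smul_def, smul_eq_mul]
      ring
    rw [this, hP, mul_zero]
  have hinj : Function.Injective (fun j : ℕ => K + m * j) := by
    intro a b hab
    have : m * a = m * b := by simpa using hab
    exact Nat.eq_of_mul_eq_mul_left (by omega) this
  have h2 := hd.fam (Finset.range (P.natDegree + 1)) (fun j => K + m * j) hinj
    (fun j => ((P.coeff j : quot A h) : ℝ) * B * u ^ j)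
    (fun j _ => h.mul _ _ _ _ (hc j) (h.pow m u hu j)) h1
  ext j
  by_cases hj : j ∈ Finset.range (P.natDegree + 1)
  · have h3 := h2 j hj
    have h4 : ((P.coeff j : quot A h) : ℝ) = 0 := by
      rcases mul_eq_zero.1 h3 with h3 | h3
      · rcases mul_eq_zero.1 h3 with h3 | h3
        · exact h3
        · exact absurd h3 hB0
      · exact absurd h3 (pow_ne_zero _ hu0)
    rw [h4]
    simp
  · have : P.natDegree < j := by
      rw [Finset.mem_range] at hj
      omega
    rw [Polynomial.coeff_eq_zero_of_natDegree_lt this]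
    simp

theorem sum_even_odd (f : ℕ → ℝ) (m : ℕ) :
    ∑ n ∈ Finset.range (2 * m), f n = ∑ i ∈ Finset.range m, f (2 * i) +
      ∑ i ∈ Finset.range m, f (2 * i + 1) := by
  induction m with
  | zero => simp
  | succ m ih =>
    rw [Nat.mul_succ, Finset.sum_range_succ, Finset.sum_range_succ, ih, Finset.sum_range_succ,
      Finset.sum_range_succ]
    ring

/-- the converse: weight `1` is zero and some nonzero `x` of weight two is transcendental over the
field of quotients; `y` is any nonzero element of weight three -/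
theorem direct_of_transcendental (h : Mul A) (h1 : ∀ z ∈ A 1, z = 0) (x y : ℝ) (hx : x ∈ A 2)
    (hy : y ∈ A 3) (hx0 : x ≠ 0) (hy0 : y ≠ 0) (ht : Transcendental (quot A h) x) : Direct A := by
  intro p z hz hs
  let z' : ℕ → ℝ := fun n => if n ≤ p then z n else 0
  have hz' : ∀ n, z' n ∈ A n := by
    intro n
    by_cases hn : n ≤ p
    · simpa only [z', hn, if_true] using hz n hn
    · simp [z', hn]
  have hxp : ∀ i, x ^ i ∈ A (2 * i) := fun i => h.pow 2 x hx i
  have hyp : ∀ i, x ^ i * y ∈ A (2 * i + 3) := fun i => h.mul _ _ _ _ (hxp i) hy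
  have hxn : ∀ i : ℕ, x ^ i ≠ 0 := fun i => pow_ne_zero _ hx0
  let c : ℕ → quot A h := fun i => ⟨z' (2 * i) / x ^ i, mem_quot (hz' _) (hxp i) (hxn i)⟩
  let d : ℕ → quot A h := fun i => ⟨z' (2 * i + 3) / (x ^ i * y),
    mem_quot (hz' _) (hyp i) (mul_ne_zero (hxn i) hy0)⟩
  let q : quot A h := ⟨y ^ 2 / x ^ 3, mem_quot (h.pow 3 y hy 2) (h.pow 2 x hx 3) (hxn 3)⟩
  let P : (quot A h)[X] := ∑ i ∈ Finset.range (p + 2), Polynomial.monomial i (c i)
  let R : (quot A h)[X] := ∑ i ∈ Finset.range (p + 1), Polynomial.monomial i (d i)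
  have hP : aeval x P = ∑ i ∈ Finset.range (p + 2), z' (2 * i) := by
    simp only [P, map_sum, Polynomial.aeval_monomial]
    refine Finset.sum_congr rfl fun i _ => ?_
    have e : algebraMap (quot A h) ℝ (c i) = z' (2 * i) / x ^ i := rfl
    rw [e, div_mul_cancel₀ _ (hxn i)]
  have hR : aeval x R * y = ∑ i ∈ Finset.range (p + 1), z' (2 * i + 3) := by
    simp only [R, map_sum, Polynomial.aeval_monomial]
    rw [Finset.sum_mul]
    refine Finset.sum_congr rfl fun i _ => ?_
    have e : algebraMap (quot A h) ℝ (d i) = z' (2 * i + 3) / (x ^ i * y) := rfl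
    have := hxn i
    rw [e]
    field_simp
  have hsum : aeval x P + aeval x R * y = 0 := by
    have e1 : ∑ n ∈ Finset.range (2 * (p + 2)), z' n = 0 := by
      have : ∑ n ∈ Finset.range (2 * (p + 2)), z' n = ∑ n ∈ Finset.range (p + 1), z n := by
        have e2 : ∑ n ∈ Finset.range (p + 1), z n = ∑ n ∈ Finset.range (p + 1), z' n :=
          Finset.sum_congr rfl fun n hn => by
            have : n ≤ p := by
              rw [Finset.mem_range] at hn
              omega
            simp [z', this]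
        rw [e2]
        symm
        refine Finset.sum_subset (by
          intro n hn
          rw [Finset.mem_range] at hn ⊢
          omega) fun n _ hn => ?_
        have : ¬ n ≤ p := by
          rw [Finset.mem_range] at hn
          omega
        simp [z', this]
      rw [this, hs]
    rw [sum_even_odd, Finset.sum_range_succ' (fun i => z' (2 * i + 1))] at e1
    have e3 : z' (2 * 0 + 1) = 0 := h1 _ (hz' 1)
    rw [hP, hR]
    rw [e3, add_zero] at e1
    exact e1
  have hq : algebraMap (quot A h) ℝ q = y ^ 2 / x ^ 3 := rfl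
  have hpoly : P ^ 2 = Polynomial.C q * X ^ 3 * R ^ 2 := by
    have : aeval x (P ^ 2 - Polynomial.C q * X ^ 3 * R ^ 2) = 0 := by
      rw [map_sub, map_pow, map_mul, map_mul, map_pow, map_pow, Polynomial.aeval_C,
        Polynomial.aeval_X, hq]
      have e4 : aeval x P = - (aeval x R * y) := by linarith
      rw [e4]
      have : x ^ 3 ≠ 0 := hxn 3
      field_simp
      ring
    have := (transcendental_iff.1 ht) _ this
    exact sub_eq_zero.1 this
  have hq0 : q ≠ 0 := by
    intro hq0
    have : y ^ 2 / x ^ 3 = 0 := by rw [← hq, hq0, map_zero]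
    exact (div_ne_zero (pow_ne_zero _ hy0) (hxn 3)) this
  have hR0 : R = 0 := by
    by_contra hR0
    have e5 := congrArg Polynomial.natDegree hpoly
    rw [Polynomial.natDegree_pow, Polynomial.natDegree_mul (by
      refine mul_ne_zero ?_ (pow_ne_zero _ Polynomial.X_ne_zero)
      simpa using hq0) (pow_ne_zero _ hR0), Polynomial.natDegree_C_mul hq0,
      Polynomial.natDegree_X_pow, Polynomial.natDegree_pow] at e5
    omega
  have hP0 : P = 0 := by
    rw [hR0] at hpoly
    have : P ^ 2 = 0 := by rw [hpoly]; ring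
    exact pow_eq_zero_iff (two_ne_zero) |>.1 this
  have hce : ∀ i ≤ p + 1, z' (2 * i) = 0 := by
    intro i hi
    have e6 : P.coeff i = c i := by
      simp only [P, Polynomial.finsetSum_coeff, Polynomial.coeff_monomial]
      rw [Finset.sum_ite_eq']
      simp [Nat.lt_succ_iff, hi]
    rw [hP0, Polynomial.coeff_zero] at e6
    have e7 : z' (2 * i) / x ^ i = 0 := by
      have : ((c i : quot A h) : ℝ) = 0 := by rw [← e6]; rfl
      exact this
    exact (div_eq_zero_iff.1 e7).resolve_right (hxn i)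
  have hco : ∀ i ≤ p, z' (2 * i + 3) = 0 := by
    intro i hi
    have e6 : R.coeff i = d i := by
      simp only [R, Polynomial.finsetSum_coeff, Polynomial.coeff_monomial]
      rw [Finset.sum_ite_eq']
      simp [Nat.lt_succ_iff, hi]
    rw [hR0, Polynomial.coeff_zero] at e6
    have e7 : z' (2 * i + 3) / (x ^ i * y) = 0 := by
      have : ((d i : quot A h) : ℝ) = 0 := by rw [← e6]; rfl
      exact this
    exact (div_eq_zero_iff.1 e7).resolve_right (mul_ne_zero (hxn i) hy0)
  intro j hj
  have e8 : z' j = z j := by simp [z', hj]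
  rw [← e8]
  rcases Nat.even_or_odd' j with ⟨i, rfl | rfl⟩
  · exact hce i (by omega)
  · rcases i with _ | i
    · exact h1 _ (hz' 1)
    · have := hco i (by omega)
      have e9 : 2 * (i + 1) + 1 = 2 * i + 3 := by ring
      rw [e9]
      exact this

end Pool.Agent.TH137.MZ
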